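import Pool.Agent.H29.LG.Targets
import Pool.Agent.H63.SX.MAIS

set_option autoImplicit false

/-!
# MP_c65535_nt, all radicals, row MLOG: the result from independent generators
-/

namespace Pool.Agent.H33.LG

open NumberField Height Finset Polynomial Pool.Agent.H24.RD Pool.Agent.H23.RDD Pool.Agent.H29.RQ
  Pool.Agent.H29.SX Pool.Agent.H29.LG

private theorem cj_of (L F' : IntermediateField ℚ (AlgebraicClosure ℚ))
    (E : IntermediateField F' (AlgebraicClosure ℚ)) (β : AlgebraicClosure ℚ)
    (hint : IsIntegral L β)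
    (h : ∀ n : ℕ, (minpoly L β).coeff n ≠ 0 →
      (((minpoly L β).coeff n : L) : AlgebraicClosure ℚ) ∈ E) :
    Cj F' (AlgebraicClosure ℚ) E (Module.finrank L (IntermediateField.adjoin L {β})) β := by
  classical
  have hfin : Module.finrank L (IntermediateField.adjoin L {β}) = (minpoly L β).natDegree :=
    IntermediateField.adjoin.finrank hint
  refine ⟨((minpoly L β).aroots (AlgebraicClosure ℚ)).toFinset, ?_, ?_⟩
  · rw [hfin]
    exact (Multiset.toFinset_card_le _).trans ((Polynomial.card_roots' _).trans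
        (Polynomial.natDegree_map_le))
  · intro σ hσ
    rw [Multiset.mem_toFinset, Polynomial.mem_aroots]
    refine ⟨minpoly.ne_zero hint, Pool.Agent.H63.SX.mais_root L F' _ β (minpoly.aeval L β) σ
      fun n => ?_⟩
    by_cases hn : (minpoly L β).coeff n = 0
    · rw [hn]
      exact map_zero σ
    · exact hσ _ (h n hn)

private theorem deg_le (A L : IntermediateField ℚ (AlgebraicClosure ℚ)) (hAL : A ≤ L)
    (β : AlgebraicClosure ℚ) (hA : IsIntegral A β) :
    (minpoly L β).natDegree ≤ (minpoly A β).natDegree := by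
  obtain ⟨i, hi⟩ : ∃ i : A →+* L, i = (IntermediateField.inclusion hAL).toRingHom := ⟨_, rfl⟩
  have h1 : aeval β ((minpoly A β).map i) = 0 := by
    rw [aeval_def, eval₂_map]
    have h2 : (algebraMap L (AlgebraicClosure ℚ)).comp i = algebraMap A (AlgebraicClosure ℚ) := by
      rw [hi]
      ext x
      rfl
    rw [h2]
    exact minpoly.aeval A β
  have h2 := minpoly.dvd L β h1
  have h3 := natDegree_le_of_dvd h2
    (((minpoly.monic hA).map i).ne_zero)
  rwa [natDegree_map] at h3

theorem pf_MLOG (h1 : T_HB) (h2 : T_LVB) (h3 : T_LOGL) (h4 : T_KLV) (h5 : T_BAS) (h6 : T_CFA) :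
    T_MLOG := by
  classical
  intro Γ hΓ
  obtain ⟨r, g, hg, hind, hdec⟩ := h5 Γ hΓ
  set F' : IntermediateField ℚ (AlgebraicClosure ℚ) :=
    IntermediateField.adjoin ℚ (Set.range fun i => (g i : AlgebraicClosure ℚ)) with hF'
  have : Algebra.IsAlgebraic ℚ (AlgebraicClosure ℚ) := AlgebraicClosure.isAlgebraic ℚ
  have hfd : FiniteDimensional ℚ F' :=
    IntermediateField.finiteDimensional_adjoin fun x _ =>
      (Algebra.IsAlgebraic.isAlgebraic x).isIntegral
  have : NumberField F' := { to_charZero := inferInstance, to_finiteDimensional := hfd }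
  have hmem : ∀ i, (g i : AlgebraicClosure ℚ) ∈ F' := fun i =>
    IntermediateField.subset_adjoin _ _ ⟨i, rfl⟩
  let γ : Fin r → F' := fun i => ⟨g i, hmem i⟩
  have hγg : ∀ i, ((γ i : F') : AlgebraicClosure ℚ) = g i := fun i => rfl
  have hγ0 : ∀ i, γ i ≠ 0 := by
    intro i h
    have h1 := hγg i
    rw [h] at h1
    exact (g i).ne_zero (by rw [← h1]; rfl)
  have hMI : MInd F' γ := by
    refine ⟨hγ0, fun x hx => hind x ?_⟩
    apply Units.ext
    have h3 := congrArg (algebraMap F' (AlgebraicClosure ℚ)) hx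
    rw [map_prod, map_one] at h3
    push_cast
    rw [← h3]
    refine Finset.prod_congr rfl fun i _ => ?_
    rw [map_zpow₀]
    rfl
  have : Algebra.IsAlgebraic F' (AlgebraicClosure ℚ) := Algebra.IsAlgebraic.tower_top (K := ℚ) F'
  obtain ⟨c, C, hc, hmain⟩ := h3 F' (AlgebraicClosure ℚ) r γ hMI
  obtain ⟨i0, hi0, hlev⟩ := h4 F' (AlgebraicClosure ℚ) r γ hMI
  have hi0' : (1 : ℝ) ≤ i0 := by exact_mod_cast hi0
  have hli0 : 0 ≤ Real.log i0 := Real.log_nonneg hi0'
  have hB0 : 0 < (2 + Real.log i0) ^ C := pow_pos (by linarith) C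
  refine ⟨c / (2 + Real.log i0) ^ C, C, div_pos hc hB0, ?_⟩
  intro L A hL hA β z hz hβz hnot
  have : Algebra.IsAlgebraic L (AlgebraicClosure ℚ) := Algebra.IsAlgebraic.tower_top (K := ℚ) L
  have : Algebra.IsAlgebraic A (AlgebraicClosure ℚ) := Algebra.IsAlgebraic.tower_top (K := ℚ) A
  have hint : IsIntegral L β := (Algebra.IsAlgebraic.isAlgebraic β).isIntegral
  have hintA : IsIntegral A β := (Algebra.IsAlgebraic.isAlgebraic β).isIntegral
  have hβ0 : β ≠ 0 := left_ne_zero_of_mul hβz
  have hAL : A ≤ L := by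
    rw [hA, hL]
    refine IntermediateField.adjoin.mono _ _ _ ?_
    rintro y ⟨n, hn, hy⟩
    exact ⟨n, hn, 1, Γ.one_mem, by rw [hy]; rfl⟩
  obtain ⟨N, hN, hcL, hcA⟩ := h6 Γ F' r g γ hγg hdec
    ((minpoly L β).support.image fun n => (((minpoly L β).coeff n : L) : AlgebraicClosure ℚ))
    ((minpoly A β).support.image fun n => (((minpoly A β).coeff n : A) : AlgebraicClosure ℚ)) (by
      intro y hy
      obtain ⟨n, _, rfl⟩ := Finset.mem_image.mp hy
      rw [← hL]
      exact ((minpoly L β).coeff n).2) (by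
      intro y hy
      obtain ⟨n, _, rfl⟩ := Finset.mem_image.mp hy
      rw [← hA]
      exact ((minpoly A β).coeff n).2)
  have hCL := cj_of L F' (Lv F' (AlgebraicClosure ℚ) γ N N) β hint
    fun n hn => hcL _ (Finset.mem_image.mpr ⟨n, Polynomial.mem_support_iff.mpr hn, rfl⟩)
  have hCA := cj_of A F' (Lv F' (AlgebraicClosure ℚ) γ N 1) β hintA
    fun n hn => hcA _ (Finset.mem_image.mpr ⟨n, Polynomial.mem_support_iff.mpr hn, rfl⟩)
  obtain ⟨K, hK0, hKN, hKD, hCK⟩ := hlev N _ _ β hN hCL hCA
  have hfin : Module.finrank L (IntermediateField.adjoin L {β}) = (minpoly L β).natDegree :=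
    IntermediateField.adjoin.finrank hint
  have hfinA : Module.finrank A (IntermediateField.adjoin A {β}) = (minpoly A β).natDegree :=
    IntermediateField.adjoin.finrank hintA
  have hpos : 0 < Module.finrank L (IntermediateField.adjoin L {β}) := by
    rw [hfin]
    exact minpoly.natDegree_pos hint
  have hdD : Module.finrank L (IntermediateField.adjoin L {β}) ≤
      Module.finrank A (IntermediateField.adjoin A {β}) := by
    rw [hfin, hfinA]
    exact deg_le A L hAL β hintA
  obtain ⟨d, hd⟩ : ∃ d, d = Module.finrank L (IntermediateField.adjoin L {β}) := ⟨_, rfl⟩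
  obtain ⟨D, hD⟩ : ∃ D, D = Module.finrank A (IntermediateField.adjoin A {β}) := ⟨_, rfl⟩
  have hres := hmain N K _ hN hKN hpos β z hβ0 hCK
    ((Pool.Agent.H24.RD.main_dv Γ F' r g hg γ hγg hdec z).mpr hz)
    (fun h => hnot ((Pool.Agent.H24.RD.main_dv Γ F' r g hg γ hγg hdec _).mp h))
  rw [← hd] at hpos hdD hres ⊢
  rw [← hD] at hdD hKD ⊢
  obtain ⟨h, hh⟩ : ∃ h, h = absLogHeight₁ (β * z) := ⟨_, rfl⟩
  rw [← hh] at hres ⊢
  have hd1 : (1 : ℝ) ≤ d := by exact_mod_cast hpos
  have hK1 : (1 : ℝ) ≤ K := by exact_mod_cast hK0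
  have hD1 : (1 : ℝ) ≤ D := le_trans hd1 (by exact_mod_cast hdD)
  have hdD' : (d : ℝ) ≤ D := by exact_mod_cast hdD
  have hKD' : (K : ℝ) ≤ i0 * D := by exact_mod_cast hKD
  have hlog3 : 1 ≤ Real.log 3 := by
    rw [Real.le_log_iff_exp_le (by norm_num)]
    have := Real.exp_one_lt_d9
    linarith
  have hl0 : 0 ≤ Real.log (3 * d * K) := by
    refine Real.log_nonneg ?_
    have : (1 : ℝ) ≤ d * K := one_le_mul_of_one_le_of_one_le hd1 hK1
    nlinarith
  have hlD : 0 ≤ Real.log D := Real.log_nonneg hD1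
  have hl1 : Real.log (3 * d * K) ≤ (2 + Real.log i0) * Real.log (3 * D) := by
    have h7 : (3 * d * K : ℝ) ≤ 3 * i0 * (D * D) := by
      have h8 : (d : ℝ) * K ≤ D * (i0 * D) := mul_le_mul hdD' hKD' (by linarith) (by linarith)
      nlinarith
    have h8 : Real.log (3 * d * K) ≤ Real.log (3 * i0 * (D * D)) :=
      Real.log_le_log (by positivity) h7
    have h9 : Real.log (3 * i0 * (D * D)) = Real.log 3 + Real.log i0 + (Real.log D + Real.log D) := by
      rw [Real.log_mul (by positivity) (by positivity), Real.log_mul (by positivity) (by positivity),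
        Real.log_mul (by positivity) (by positivity)]
    have h10 : Real.log (3 * (D : ℝ)) = Real.log 3 + Real.log D := by
      rw [Real.log_mul (by positivity) (by positivity)]
    rw [h10]
    rw [h9] at h8
    nlinarith [mul_nonneg hli0 hlD]
  have hh0 : 0 < h := by
    by_contra hc0
    push Not at hc0
    have h7 : h * d * Real.log (3 * d * K) ^ C ≤ 0 :=
      mul_nonpos_of_nonpos_of_nonneg (mul_nonpos_of_nonpos_of_nonneg hc0 (by linarith))
        (pow_nonneg hl0 C)
    linarith
  rw [div_le_iff₀ hB0]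
  refine le_trans hres ?_
  have h11 : Real.log (3 * d * K) ^ C ≤ ((2 + Real.log i0) * Real.log (3 * D)) ^ C :=
    pow_le_pow_left₀ hl0 hl1 C
  calc h * d * Real.log (3 * d * K) ^ C
      ≤ h * d * ((2 + Real.log i0) * Real.log (3 * D)) ^ C :=
        mul_le_mul_of_nonneg_left h11 (by positivity)
    _ = h * d * Real.log (3 * D) ^ C * (2 + Real.log i0) ^ C := by
        rw [mul_pow]
        ring

end Pool.Agent.H33.LG
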